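import Pool.Agent.Lib.helper8.Kneser2

set_option autoImplicit false

open Finset
open scoped Pointwise

namespace Pool.Agent.Results.MP_7a9645_co.Three

open Pool.Agent.Lib.helper8.Kneser

section
variable {G : Type} [AddCommGroup G] [Fintype G] [DecidableEq G]

theorem strict (N : ℕ) : ∀ K A : Finset G, K.card = N → IsSub K → A ⊆ K →
    (∀ m, m ∣ K.card → m % 3 ≠ 2) → (0 : G) ∉ A + A + A → 3 * A.card < K.card := by
  induction N using Nat.strong_induction_on with
  | _ N ih =>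
    intro K A hN hK hA hm h0
    have weak : ∀ K' B : Finset G, IsSub K' → K'.card ∣ K.card → B ⊆ K' → ∀ t ∈ K',
        t ∉ B + B + B → 3 * B.card ≤ K'.card := by
      intro K' B hK' hd hB t ht hn
      rcases three_bound hK' hB ht hn with h | ⟨m, h1, h2, -⟩
      · exact h
      · exact absurd h1 (hm m (h2.trans hd))
    by_cases h3 : 3 ∣ K.card
    swap
    · have := weak K A hK dvd_rfl hA 0 hK.zero h0
      omega
    let S : AddSubgroup G :=
      { carrier := K, add_mem' := hK.add, zero_mem' := hK.zero, neg_mem' := hK.neg }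
    have hS : Nat.card S = K.card := by
      rw [← Fintype.card_coe K, ← Nat.card_eq_fintype_card]; rfl
    have : Fact (Nat.Prime 3) := ⟨Nat.prime_three⟩
    obtain ⟨z, hz⟩ := exists_prime_addOrderOf_dvd_card' (G := S) 3 (hS ▸ h3)
    have z3 : z.1 + z.1 + z.1 = 0 := by
      have := addOrderOf_nsmul_eq_zero z
      rw [hz] at this
      have := congrArg Subtype.val this
      simpa [succ_nsmul] using this
    have z0 : z.1 ≠ 0 := by
      intro e
      have : z = 0 := Subtype.ext e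
      rw [this, addOrderOf_zero] at hz
      omega
    set K' := K.image (fun x => x + x + x) with hK'
    have sK' : IsSub K' := by
      refine ⟨mem_image.2 ⟨0, hK.zero, by simp⟩, fun {x y} hx hy => ?_, fun {x} hx => ?_⟩
      · obtain ⟨a, ha, rfl⟩ := mem_image.1 hx
        obtain ⟨b, hb, rfl⟩ := mem_image.1 hy
        exact mem_image.2 ⟨a + b, hK.add ha hb, by abel⟩
      · obtain ⟨a, ha, rfl⟩ := mem_image.1 hx
        exact mem_image.2 ⟨-a, hK.neg ha, by abel⟩
    have sub : K' ⊆ K := by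
      intro x hx
      obtain ⟨a, ha, rfl⟩ := mem_image.1 hx
      exact hK.add (hK.add ha ha) ha
    have lt : K'.card < K.card := by
      refine lt_of_le_of_ne card_image_le (fun e => z0 ?_)
      exact card_image_iff.1 e z.2 hK.zero (by simp [z3])
    have dv : K'.card ∣ K.card := Per.dvd sK' _ _ rfl (hK.per sub)
    let B : G → Finset G := fun x => K'.filter (fun y => x + y ∈ A)
    have nB : ∀ x, -(x + x + x) ∉ B x + B x + B x := by
      intro x h
      obtain ⟨u, hu, c, hc, e⟩ := mem_add.1 h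
      obtain ⟨a, ha, b, hb, rfl⟩ := mem_add.1 hu
      refine h0 ?_
      have := add_mem_add (add_mem_add (mem_filter.1 ha).2 (mem_filter.1 hb).2) (mem_filter.1 hc).2
      rwa [show x + a + (x + b) + (x + c) = (x + x + x) + (a + b + c) by abel, e,
        add_neg_cancel] at this
    have b1 : ∀ x ∈ K, 3 * (B x).card ≤ K'.card := fun x hx =>
      weak K' (B x) sK' dv (filter_subset _ _) _ (sK'.neg (mem_image.2 ⟨x, hx, rfl⟩)) (nB x)
    have b0 : 3 * (B 0).card < K'.card :=
      ih _ (by omega) K' (B 0) rfl sK' (filter_subset _ _) (fun m h => hm m (h.trans dv))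
        (by simpa using nB 0)
    have sm : ∑ x ∈ K, (B x).card = K'.card * A.card := by
      simp only [B, card_filter]
      rw [sum_comm, ← smul_eq_mul, ← sum_const]
      refine sum_congr rfl (fun y hy => ?_)
      rw [← card_filter]
      refine card_bij (fun x _ => x + y) (fun x hx => (mem_filter.1 hx).2)
        (fun a _ b _ e => by simpa using e) (fun a ha => ⟨a - y, ?_, by simp⟩)
      exact mem_filter.2 ⟨hK.sub (hA ha) (sub hy), by simpa using ha⟩
    have : ∑ x ∈ K, 3 * (B x).card < ∑ _x ∈ K, K'.card := sum_lt_sum b1 ⟨0, hK.zero, b0⟩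
    rw [← mul_sum, sm, sum_const, smul_eq_mul] at this
    have hp : 0 < K'.card := card_pos.2 ⟨0, sK'.zero⟩
    exact Nat.lt_of_mul_lt_mul_left (a := K'.card) (by nlinarith)
end

theorem low (n : ℕ) [NeZero n] (d e : ℕ) (hd : n = d * e) :
    ∃ A : Finset (ZMod n), (∀ a ∈ A, ∀ b ∈ A, ∀ c ∈ A, a + b + c ≠ 0) ∧
      A.card = ((2 * d + 2) / 3 - (d / 3 + 1)) * e := by
  have hd0 : 0 < d := Nat.pos_of_ne_zero (by rintro rfl; exact NeZero.ne n (by omega))
  refine ⟨lift n d (Ico (d / 3 + 1) ((2 * d + 2) / 3)), fun a ha b hb c hc h => ?_, ?_⟩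
  · rw [mem_lift, mem_Ico] at ha hb hc
    have dv : d ∣ n := Dvd.intro _ hd.symm
    have := congrArg (fun x : ZMod n => x.val % d) h
    simp only [ZMod.val_zero, Nat.zero_mod] at this
    rw [val_add_mod dv, val_add_mod dv, Nat.mod_add_mod] at this
    generalize a.val % d = x at *
    generalize b.val % d = y at *
    generalize c.val % d = z at *
    rw [show x + y + z = (x + y + z - d) + d by omega, Nat.add_mod_right,
      Nat.mod_eq_of_lt (by omega)] at this
    omega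
  · rw [card_lift hd (fun x hx => by rw [mem_Ico] at hx; omega), Nat.card_Ico]

theorem result (n : ℕ) (hn : 0 < n) :
    (∀ p : ℕ, IsLeast {q : ℕ | q.Prime ∧ q ∣ n ∧ q % 3 = 2} p →
      IsGreatest {x : ℚ | ∃ A : Finset (ZMod n),
        (∀ a ∈ A, ∀ b ∈ A, ∀ c ∈ A, a + b + c ≠ 0) ∧ (A.card : ℚ) = x} ((1 + 1 / p) * n / 3)) ∧
    ((∀ q : ℕ, q.Prime → q ∣ n → q % 3 ≠ 2) →
      IsGreatest {m : ℕ | ∃ A : Finset (ZMod n),
        (∀ a ∈ A, ∀ b ∈ A, ∀ c ∈ A, a + b + c ≠ 0) ∧ A.card = m} ((n - 1) / 3)) := by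
  have : NeZero n := ⟨hn.ne'⟩
  have n0 : ∀ A : Finset (ZMod n), (∀ a ∈ A, ∀ b ∈ A, ∀ c ∈ A, a + b + c ≠ 0) →
      (0 : ZMod n) ∉ A + A + A := by
    intro A hA h
    obtain ⟨u, hu, c, hc, e⟩ := mem_add.1 h
    obtain ⟨a, ha, b, hb, rfl⟩ := mem_add.1 hu
    exact hA a ha b hb c hc e
  have cu : (univ : Finset (ZMod n)).card = n := by rw [card_univ, ZMod.card]
  refine ⟨fun p hp => ⟨?_, ?_⟩, fun h => ⟨?_, ?_⟩⟩
  · obtain ⟨⟨h1, ⟨e, he⟩, h3⟩, -⟩ := hp
    obtain ⟨A, hA, hc⟩ := low n p e he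
    refine ⟨A, hA, ?_⟩
    obtain ⟨k, rfl⟩ : ∃ k, p = 3 * k + 2 := ⟨p / 3, by omega⟩
    rw [hc, show (2 * (3 * k + 2) + 2) / 3 - ((3 * k + 2) / 3 + 1) = k + 1 by omega, he]
    push_cast
    field_simp
    ring
  · rintro _ ⟨A, hA, rfl⟩
    have p0 : (0 : ℚ) < p := by exact_mod_cast hp.1.1.pos
    have n0' : (0 : ℚ) ≤ n := by positivity
    rcases three_bound sub_univ (subset_univ A) (mem_univ 0) (n0 A hA) with h | ⟨m, h1, h2, h3⟩
    · rw [cu] at h
      have h' : (3 : ℚ) * A.card ≤ n := by exact_mod_cast h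
      have : 0 ≤ 1 / (p : ℚ) * n := by positivity
      linarith
    · rw [cu] at h2 h3
      obtain ⟨q, q1, q2, q3⟩ := ex_prime_mod (Or.inl ⟨rfl, rfl⟩) m h1
      have m0 : 0 < m := by omega
      have pm : p ≤ m := (hp.2 ⟨q1, q2.trans h2, q3⟩).trans (Nat.le_of_dvd m0 q2)
      have h' : (3 : ℚ) * m * A.card ≤ (m + 1) * n := by exact_mod_cast h3
      have m0' : (0 : ℚ) < m := by exact_mod_cast m0
      have e1 : (3 : ℚ) * A.card ≤ (1 + 1 / m) * n := by
        rw [show (1 + 1 / (m : ℚ)) * n = (m + 1) * n / m by field_simp, le_div_iff₀ m0']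
        linarith
      have e2 : 1 / (m : ℚ) ≤ 1 / p := one_div_le_one_div_of_le p0 (by exact_mod_cast pm)
      have e3 := mul_le_mul_of_nonneg_right e2 n0'
      linarith
  · obtain ⟨A, hA, hc⟩ := low n n 1 (by omega)
    refine ⟨A, hA, ?_⟩
    have : n % 3 ≠ 2 := fun e => by
      obtain ⟨q, q1, q2, q3⟩ := ex_prime_mod (Or.inl ⟨rfl, rfl⟩) n e
      exact h q q1 q2 q3
    obtain ⟨k, hk | hk⟩ : ∃ k, n = 3 * k ∨ n = 3 * k + 1 := ⟨n / 3, by omega⟩ <;> omega
  · rintro _ ⟨A, hA, rfl⟩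
    have := strict _ univ A rfl sub_univ (subset_univ A) (fun m hm e => by
      obtain ⟨q, q1, q2, q3⟩ := ex_prime_mod (Or.inl ⟨rfl, rfl⟩) m e
      exact h q q1 (q2.trans (cu ▸ hm)) q3) (n0 A hA)
    omega

end Pool.Agent.Results.MP_7a9645_co.Three
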